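import Pool.Agent.H93.GT.Targets

/-!
# Row GDC of the board `gdi_modules`: the negative half
-/

set_option autoImplicit false

namespace Pool.Agent.H38.GT

open Pool.Agent.H93.GT Pool.Agent.H87.Synth Pool.Agent.H85.SC Finset
open Pool.Agent.H93.ET (sg jj iE iA T_KKL T_CUT T_BRK T_SER T_CRI)

theorem gdc (h1 : T_PEX) (h2 : T_GPO) (h3 : T_GNG) (h4 : T_GCO) (h5 : T_COD) (h6 : T_GDI)
    (h7 : T_GRL) : T_GDC := by
  intro d hd hm hs
  obtain ⟨P⟩ := h1 d hd hm hs
  refine ⟨fun T => grelB P (ST T), h4 d P, fun T => ⟨P.grel (ST T), ?_, ?_, ?_, ?_⟩⟩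
  · intro m n
    simp [grelB]
  · exact (h7 d P (ST T)).2.1
  · intro m n hmn
    rcases ((h7 d P (ST T)).1 m n).1 hmn with rfl | ⟨c, hc, hc'⟩
    · rw [sub_self, abs_zero]
      exact (hd _).le
    · exact h6 d hm P (ST T) c m hc n hc'
  · rw [← (h5 T).2]
    constructor
    · intro hB
      exact h3 d P (ST T) (h5 T).1 hB
    · intro hN
      by_contra hB
      exact hN (h2 d P (ST T) (h5 T).1 hB)

end Pool.Agent.H38.GT
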